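import Mathlib
import Pool.Agent.EGHV27.Fin

set_option autoImplicit false

namespace Pool.Agent.Results.MP_47ab85_ag.AllDegreesExponential

/-- Let `F 1, …, F n` be forms of degrees `d i ≤ 2 e` in `c + 1` variables over a field `K` with only
finitely many common zeros in projective `c`-space over the algebraic closure (for instance the
equations of a zero-dimensional complete intersection of an arbitrary type `d 1, …, d c ≤ 2 e`), and
let `Γ` be a subscheme of their zero scheme, given by a saturated homogeneous ideal `J` containing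
the `F i`, with Hilbert function `h` and degree `D`.
Then, for every `r`, the first difference of `h` at `e i + r`, as a function of `i`, is the sum of
the numbers of faces of size `i` of finitely many simplicial complexes (each containing the empty
face); and if `Γ` fails to impose independent conditions in degree `m`, then
`D ≥ ∑_{r < e, r ≤ m + 1} 2 ^ ⌊(m + 1 - r) / e⌋`. -/
theorem result :
    ∀ (K : Type) [Field K] (c n e : ℕ) (d : ℕ → ℕ)
      (F : ℕ → MvPolynomial (Fin (c+1)) K),
      1 ≤ e →
      (∀ i ∈ Finset.Icc 1 n, d i ≤ 2 * e) →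
      (∀ i ∈ Finset.Icc 1 n, (F i).IsHomogeneous (d i)) →
      (∀ j : Fin (c+1), Set.Finite {x : Fin (c+1) → AlgebraicClosure K |
          x j = 1 ∧ ∀ i ∈ Finset.Icc 1 n, MvPolynomial.aeval x (F i) = 0}) →
      ∀ J : Ideal (MvPolynomial (Fin (c+1)) K),
      (∀ f ∈ J, ∀ k : ℕ, MvPolynomial.homogeneousComponent k f ∈ J) →
      (∀ f : MvPolynomial (Fin (c+1)) K,
          (∃ N : ℕ, ∀ i : Fin (c+1), MvPolynomial.X i ^ N * f ∈ J) → f ∈ J) →
      (∀ i ∈ Finset.Icc 1 n, F i ∈ J) →
      ∀ h : ℕ → ℕ,
      (∀ k : ℕ, h k =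
          Module.finrank K (MvPolynomial.homogeneousSubmodule (Fin (c+1)) K k) -
          Module.finrank K
            ↥(Submodule.restrictScalars K J ⊓
              MvPolynomial.homogeneousSubmodule (Fin (c+1)) K k)) →
      (∀ r : ℕ, ∃ (s N : ℕ) (Δ : Fin s → Finset (Finset (Fin N))),
        (∀ k, ∅ ∈ Δ k ∧ ∀ U ∈ Δ k, ∀ V, V ⊆ U → V ∈ Δ k) ∧
        ∀ i, h (e * i + r) = (if e * i + r = 0 then 0 else h (e * i + r - 1)) +
          ∑ k, ((Δ k).filter (fun U => U.card = i)).card) ∧
      ∀ D : ℕ, (∃ N : ℕ, ∀ k ≥ N, h k = D) → ∀ m : ℕ, h m < D →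
        ∑ r ∈ (Finset.range e).filter (fun r => r ≤ m + 1), 2 ^ ((m + 1 - r) / e) ≤ D := by
  intro K _ c n e d F he hd2 hF hfin J hJh hsat hFJ h hh
  exact Pool.Agent.EGHV27.main K c n e he d F hd2 hF hfin J hJh hsat hFJ h hh

end Pool.Agent.Results.MP_47ab85_ag.AllDegreesExponential
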