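import Mathlib
import Pool.Agent.CB3.Final

set_option autoImplicit false

namespace Pool.Agent.Results.MP_47ab85_ag.HighIntervals

/-- Let `X` be a zero-dimensional complete intersection of degrees `d 1 ≤ … ≤ d c` in projective
`c`-space over an algebraically closed field and `Γ ⊆ X` a subscheme, given by a saturated homogeneous
ideal `J` containing the equations of `X`, with Hilbert function `h` and degree `D`.  If
`∑_{i ≥ k+2} (d i - 1) ≤ m + 1 < ∑_{i ≥ k+1} (d i - 1)`, where `k ≥ c - 3` or `k = 0`, and `Γ` fails to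
impose independent conditions in degree `m`, then `D ≥ (e + 1) d (k+2) ⋯ d c`, where
`e = m + 1 - ∑_{i ≥ k+2} (d i - 1)`.  For `c ≤ 4` there is no restriction on `k`. -/
theorem result :
  ∀ (K : Type) [Field K] [IsAlgClosed K] (c : ℕ) (d : ℕ → ℕ)
    (F : ℕ → MvPolynomial (Fin (c+1)) K),
    (∀ i ∈ Finset.Icc 1 c, 1 ≤ d i) →
    (∀ i j : ℕ, 1 ≤ i → i ≤ j → j ≤ c → d i ≤ d j) →
    (∀ i ∈ Finset.Icc 1 c, F i ≠ 0 ∧ (F i).IsHomogeneous (d i)) →
    (∀ j : Fin (c+1), Set.Finite {x : Fin (c+1) → K |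
        x j = 1 ∧ ∀ i ∈ Finset.Icc 1 c, MvPolynomial.eval x (F i) = 0}) →
    ∀ J : Ideal (MvPolynomial (Fin (c+1)) K),
    (∀ f ∈ J, ∀ n : ℕ, MvPolynomial.homogeneousComponent n f ∈ J) →
    (∀ f : MvPolynomial (Fin (c+1)) K,
        (∃ N : ℕ, ∀ i : Fin (c+1), MvPolynomial.X i ^ N * f ∈ J) → f ∈ J) →
    (∀ i ∈ Finset.Icc 1 c, F i ∈ J) →
    ∀ h : ℕ → ℕ,
    (∀ n : ℕ, h n =
        Module.finrank K (MvPolynomial.homogeneousSubmodule (Fin (c+1)) K n) -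
        Module.finrank K
          ↥(Submodule.restrictScalars K J ⊓ MvPolynomial.homogeneousSubmodule (Fin (c+1)) K n)) →
    ∀ D : ℕ, (∃ N : ℕ, ∀ n ≥ N, h n = D) →
    ∀ m k : ℕ, k + 1 ≤ c →
    (k = 0 ∨ c ≤ k + 3) →
    (∑ i ∈ Finset.Icc (k+2) c, (d i - 1)) ≤ m + 1 →
    m + 1 < ∑ i ∈ Finset.Icc (k+1) c, (d i - 1) →
    h m < D →
    (m + 1 - (∑ i ∈ Finset.Icc (k+2) c, (d i - 1)) + 1) * ∏ i ∈ Finset.Icc (k+2) c, d i ≤ D := by
  intro K _ _ c d F hd1 hmono hF hfin J hJ hsat hFJ h hh D hD m k hkc hk hm1 hm2 hlt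
  exact Pool.Agent.CB3.main3 K c d F hd1 hmono (fun i hi => (hF i hi).2) hfin J hJ hsat hFJ h hh D
    hD m k hkc hk hm1 hm2 hlt

end Pool.Agent.Results.MP_47ab85_ag.HighIntervals
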