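import Mathlib
import Pool.Agent.CB27.CoreProof
import Pool.Agent.K1Z.StructP

set_option autoImplicit false

namespace Pool.Agent.Results.MP_47ab85_ag.IntervalOne

/-- Let `X` be a zero-dimensional complete intersection of degrees `d 1 ≤ … ≤ d c` in projective
`c`-space over an algebraically closed field `K` and `Γ ⊆ X` a subscheme, given by a saturated
homogeneous ideal `J` containing the equations of `X`, with Hilbert function `h` and degree `D`.
Let `m + 1 ≥ ∑_{i ≥ 3} (d i - 1)` and `e = m + 1 - ∑_{i ≥ 3} (d i - 1)`. Suppose that `K` has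
characteristic `0`, or characteristic greater than the explicit number below (which depends only on
`e, d 3, …, d c`). If `Γ` fails to impose independent conditions in degree `m`, then
`D ≥ (e + 1) * d 3 * ⋯ * d c`. -/
theorem result :
    ∀ (K : Type) [Field K] [IsAlgClosed K] (c : ℕ) (d : ℕ → ℕ)
      (F : ℕ → MvPolynomial (Fin (c+1)) K),
      2 ≤ c →
      (∀ i ∈ Finset.Icc 1 c, 1 ≤ d i) →
      (∀ i j : ℕ, 1 ≤ i → i ≤ j → j ≤ c → d i ≤ d j) →
      (∀ i ∈ Finset.Icc 1 c, (F i).IsHomogeneous (d i)) →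
      (∀ j : Fin (c+1), Set.Finite {x : Fin (c+1) → K |
          x j = 1 ∧ ∀ i ∈ Finset.Icc 1 c, MvPolynomial.eval x (F i) = 0}) →
      ∀ J : Ideal (MvPolynomial (Fin (c+1)) K),
      (∀ f ∈ J, ∀ n : ℕ, MvPolynomial.homogeneousComponent n f ∈ J) →
      (∀ f : MvPolynomial (Fin (c+1)) K,
          (∃ N : ℕ, ∀ i : Fin (c+1), MvPolynomial.X i ^ N * f ∈ J) → f ∈ J) →
      (∀ i ∈ Finset.Icc 1 c, F i ∈ J) →
      ∀ h : ℕ → ℕ,
      (∀ n : ℕ, h n =
          Module.finrank K (MvPolynomial.homogeneousSubmodule (Fin (c+1)) K n) -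
          Module.finrank K
            ↥(Submodule.restrictScalars K J ⊓
              MvPolynomial.homogeneousSubmodule (Fin (c+1)) K n)) →
      ∀ D : ℕ, (∃ N : ℕ, ∀ n ≥ N, h n = D) →
      ∀ m : ℕ,
      (∑ i ∈ Finset.Icc 3 c, (d i - 1)) ≤ m + 1 →
      (ringChar K = 0 ∨
        3 * (∏ i ∈ Finset.Icc 3 c, d i) +
          ((∏ i ∈ Finset.Icc 3 c, d i) * (∑ i ∈ Finset.Icc 3 c, (d i - 1)) +
            (∏ i ∈ Finset.Icc 3 c, d i) * (∑ i ∈ Finset.Icc 3 c, d i)) *
            (m + 1 - (∑ i ∈ Finset.Icc 3 c, (d i - 1)) + 2) < ringChar K) →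
      h m < D →
      (m + 1 - (∑ i ∈ Finset.Icc 3 c, (d i - 1)) + 1) * ∏ i ∈ Finset.Icc 3 c, d i ≤ D := by
  intro K _ _ c d F hc hd1 hmono hF hfin J hJ hsat hFJ h hh D hD m hm hchar hlt
  exact Pool.Agent.CB27.final' (Pool.Agent.CB27.coreP Pool.Agent.K1Z.structP) K c d F hc hd1
    hmono hF hfin J hJ hsat hFJ h hh D hD m hm hchar hlt

end Pool.Agent.Results.MP_47ab85_ag.IntervalOne
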