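import Mathlib
import Pool.Agent.EGH51.Fin47

set_option autoImplicit false

namespace Pool.Agent.Results.MP_47ab85_ag.QuadricComplexes

/-- Let `K` be a field, `Q 1, …, Q c` forms of degree `1` or `2` in `c + 1` variables which have
only finitely many common zeros in projective `c`-space over the algebraic closure of `K`, and `Γ` a
closed subscheme of this complete intersection, given by a saturated homogeneous ideal `J` containing
the `Q i`, with Hilbert function `h`.  Then there is a simplicial complex `Δ` on `c` vertices such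
that `h n` is the number of faces with at most `n` vertices, for every `n`.  Consequently, if `D` is
the degree of `Γ` and `h m < D`, then `D ≥ 2 ^ (m + 1)`, and `D ≥ (e + 1) * d (k+2) * ⋯ * d c` for
all `d` and `k` with `∑_{i ≥ k+2} (d i - 1) ≤ m + 1`, where `e = m + 1 - ∑_{i ≥ k+2} (d i - 1)`. -/
theorem result :
    ∀ (K : Type) [Field K] (c : ℕ) (Q : ℕ → MvPolynomial (Fin (c+1)) K),
      (∀ i ∈ Finset.Icc 1 c, (Q i).IsHomogeneous 1 ∨ (Q i).IsHomogeneous 2) →
      (∀ j : Fin (c+1), Set.Finite {x : Fin (c+1) → AlgebraicClosure K |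
          x j = 1 ∧ ∀ i ∈ Finset.Icc 1 c, MvPolynomial.aeval x (Q i) = 0}) →
      ∀ J : Ideal (MvPolynomial (Fin (c+1)) K),
      (∀ f ∈ J, ∀ n : ℕ, MvPolynomial.homogeneousComponent n f ∈ J) →
      (∀ f : MvPolynomial (Fin (c+1)) K,
          (∃ N : ℕ, ∀ i : Fin (c+1), MvPolynomial.X i ^ N * f ∈ J) → f ∈ J) →
      (∀ i ∈ Finset.Icc 1 c, Q i ∈ J) →
      ∀ h : ℕ → ℕ,
      (∀ n : ℕ, h n =
          Module.finrank K (MvPolynomial.homogeneousSubmodule (Fin (c+1)) K n) -
          Module.finrank K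
            ↥(Submodule.restrictScalars K J ⊓
              MvPolynomial.homogeneousSubmodule (Fin (c+1)) K n)) →
      (∃ Δ : Finset (Finset (Fin c)), (∀ U ∈ Δ, ∀ V, V ⊆ U → V ∈ Δ) ∧
        ∀ n, h n = (Δ.filter (fun U => U.card ≤ n)).card) ∧
      ∀ D : ℕ, (∃ N : ℕ, ∀ n ≥ N, h n = D) → ∀ m : ℕ, h m < D →
        2 ^ (m + 1) ≤ D ∧
        ∀ (d : ℕ → ℕ) (k : ℕ), (∑ i ∈ Finset.Icc (k+2) c, (d i - 1)) ≤ m + 1 →
          (m + 1 - (∑ i ∈ Finset.Icc (k+2) c, (d i - 1)) + 1) * ∏ i ∈ Finset.Icc (k+2) c, d i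
            ≤ D := by
  intro K _ c Q hQ hfin J hJ hsat hQJ h hh
  exact Pool.Agent.EGH51.main47 K c Q hQ hfin J hJ hsat hQJ h hh

end Pool.Agent.Results.MP_47ab85_ag.QuadricComplexes
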